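import Pool.Agent.H739K.All2

/-!
Mean area of square-lattice self-avoiding polygons: `|A_{n+1}/A_n - 1| ≤ K ((log n)^9 / n)^(1/2)`.
-/

namespace Pool.Agent.Results.MP_2250b1_co.ConsecutiveMeans

/-- a closed nearest-neighbour loop on `ℤ²` with `m` steps, rooted at the origin and oriented,
that visits no vertex twice -/
def IsLoop (m : ℕ) (f : ZMod m → ℤ × ℤ) : Prop :=
  f 0 = 0 ∧ Function.Injective f ∧
    ∀ i : ZMod m, |(f (i + 1)).1 - (f i).1| + |(f (i + 1)).2 - (f i).2| = 1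

/-- the edge from `f k` to `f (k+1)` is horizontal, joins the columns `x = a` and `x = a + 1`, and
has height larger than `b`: it lies above the unit cell `[a, a+1] × [b, b+1]` -/
def Above (m : ℕ) (f : ZMod m → ℤ × ℤ) (a b : ℤ) (k : ZMod m) : Prop :=
  (((f k).1 = a ∧ (f (k + 1)).1 = a + 1) ∨ ((f k).1 = a + 1 ∧ (f (k + 1)).1 = a)) ∧ b < (f k).2

/-- the unit cell `[a, a+1] × [b, b+1]` is enclosed by the loop: the vertical ray from the cell
upwards crosses an odd number of edges -/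
def Encl (m : ℕ) (f : ZMod m → ℤ × ℤ) (c : ℤ × ℤ) : Prop :=
  Odd (Nat.card {k : ZMod m // Above m f c.1 c.2 k})

/-- the area: the number of unit cells enclosed by the loop -/
noncomputable def area (m : ℕ) (f : ZMod m → ℤ × ℤ) : ℕ := Nat.card {c : ℤ × ℤ // Encl m f c}

/-- the mean area `A_n` of the self-avoiding polygons of perimeter `2 n`: the average of the
area over the rooted oriented polygons. -/
noncomputable def A (n : ℕ) : ℝ :=
  (∑ᶠ f ∈ {f : ZMod (2 * n) → ℤ × ℤ | IsLoop (2 * n) f}, (area (2 * n) f : ℝ)) /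
    ({f : ZMod (2 * n) → ℤ × ℤ | IsLoop (2 * n) f}.ncard : ℝ)

/-- **Theorem.** There is `K` with `|A_{n+1}/A_n - 1| ≤ K ((log n)^9 / n)^(1/2)` for all `n ≥ 2`. -/
theorem result : ∃ K : ℝ, ∀ n : ℕ, 2 ≤ n →
    |A (n + 1) / A n - 1| ≤ K * Real.sqrt (Real.log n ^ 9 / n) :=
  Pool.Agent.H739K.f2

end Pool.Agent.Results.MP_2250b1_co.ConsecutiveMeans
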